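import Pool.Agent.helper36.YB.Spec

set_option autoImplicit false

open Finset
open Pool.Agent.FI Pool.Agent.HK Pool.Agent.BP
open Pool.Agent.CH (nit rgh ll2)
open Pool.Agent.SK (tr0 Th)

noncomputable section

namespace Pool.Agent.YB

theorem MUT_norm (t x : ℝ) : ‖nit t x‖ = 1 := by
  unfold nit
  exact Complex.norm_exp_ofReal_mul_I _

theorem MUT_diff (t a b : ℝ) : ‖nit t a - nit t b‖ ≤ |t| * |Real.log a - Real.log b| := by
  have h1 : nit t a - nit t b = nit t b *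
      (Complex.exp (Complex.I * ((t * (Real.log a - Real.log b) : ℝ) : ℂ)) - 1) := by
    unfold nit
    rw [mul_sub, mul_one, ← Complex.exp_add]
    congr 2
    push_cast
    ring
  rw [h1, norm_mul, MUT_norm, one_mul]
  refine le_trans Real.norm_exp_I_mul_ofReal_sub_one_le ?_
  rw [Real.norm_eq_abs, abs_mul]

theorem MUT_abel (a : ℕ → ℂ) (t M : ℝ) (N : ℕ)
    (h : ∀ u ≤ N, ‖∑ n ∈ Ioc 0 u, a n‖ ≤ M) (hM : 0 ≤ M) : ∀ m : ℕ, m ≤ N → 1 ≤ m →
    ‖∑ n ∈ Ioc 0 m, a n * nit t n - (∑ n ∈ Ioc 0 m, a n) * nit t m‖ ≤ M * |t| * Real.log m := by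
  intro m hm h1
  induction m, h1 using Nat.le_induction with
  | base =>
    simp
  | succ m h1 ih =>
    have ih' := ih (by omega)
    have e : ∑ n ∈ Ioc 0 (m + 1), a n * nit t n - (∑ n ∈ Ioc 0 (m + 1), a n) * nit t ((m + 1 : ℕ) : ℝ) =
        (∑ n ∈ Ioc 0 m, a n * nit t n - (∑ n ∈ Ioc 0 m, a n) * nit t m) +
          (∑ n ∈ Ioc 0 m, a n) * (nit t m - nit t ((m + 1 : ℕ) : ℝ)) := by
      rw [← Finset.insert_Ioc_right_eq_Ioc_add_one (Nat.zero_le m), Finset.sum_insert (by simp),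
        Finset.sum_insert (by simp)]
      ring
    rw [e]
    have hm0 : (0 : ℝ) < m := by exact_mod_cast h1
    have hlog : Real.log m ≤ Real.log ((m + 1 : ℕ) : ℝ) :=
      Real.log_le_log hm0 (by push_cast; linarith)
    have h2 : ‖(∑ n ∈ Ioc 0 m, a n) * (nit t m - nit t ((m + 1 : ℕ) : ℝ))‖ ≤
        M * (|t| * (Real.log ((m + 1 : ℕ) : ℝ) - Real.log m)) := by
      rw [norm_mul]
      apply mul_le_mul (h m (by omega)) _ (norm_nonneg _) hM
      refine le_trans (MUT_diff t _ _) ?_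
      rw [abs_sub_comm, abs_of_nonneg (sub_nonneg.2 hlog)]
    have h3 := norm_add_le (∑ n ∈ Ioc 0 m, a n * nit t n - (∑ n ∈ Ioc 0 m, a n) * nit t m)
      ((∑ n ∈ Ioc 0 m, a n) * (nit t m - nit t ((m + 1 : ℕ) : ℝ)))
    have h4 : M * |t| * Real.log ((m + 1 : ℕ) : ℝ) = M * |t| * Real.log m +
        M * (|t| * (Real.log ((m + 1 : ℕ) : ℝ) - Real.log m)) := by ring
    rw [h4]
    linarith

theorem MUT (hVP : CH.VP_stmt) (hMUW : MUW_stmt) : MUT_stmt := by
  intro A B K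
  obtain ⟨B₁, x₁, h1⟩ := hVP A B K
  obtain ⟨x₂, h2⟩ := hMUW (A + B₁ + 3) B
  refine ⟨max (max x₁ x₂) (Real.exp 2), ?_⟩
  intro x hx q hq hqx χ t ht
  have hx1 : x₁ ≤ x := le_trans (le_trans (le_max_left _ _) (le_max_left _ _)) hx
  have hx2 : x₂ ≤ x := le_trans (le_trans (le_max_right _ _) (le_max_left _ _)) hx
  have hxe : Real.exp 2 ≤ x := le_trans (le_max_right _ _) hx
  have hx0 : 0 < x := lt_of_lt_of_le (Real.exp_pos 2) hxe
  have hL : 2 ≤ Real.log x := by
    rw [Real.le_log_iff_exp_le hx0]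
    exact hxe
  set L := Real.log x with hLdef
  rcases le_or_gt (L ^ B₁) |t| with hbig | hsmall
  · have h3 := (h1 x hx1 q hq hqx χ t hbig ht).2
    refine le_trans (le_of_eq ?_) h3
    congr 1
  · have hLpos : 0 < L := by linarith
    have hxge1 : 1 ≤ x := by
      have := Real.add_one_le_exp 2
      linarith
    set N := ⌊x⌋₊ with hN
    have hN1 : 1 ≤ N := Nat.one_le_floor_iff x |>.2 hxge1
    have hNx : (N : ℝ) ≤ x := Nat.floor_le hx0.le
    set M := x / L ^ (A + B₁ + 3) with hM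
    have hM0 : 0 ≤ M := by positivity
    have hS : ∀ u ≤ N, ‖∑ n ∈ Ioc 0 u, mg (fun n => χ (n : ZMod q)) n‖ ≤ M := by
      intro u hu
      apply h2 x hx2 q hq hqx χ u
      have : (u : ℝ) ≤ N := by exact_mod_cast hu
      linarith
    have hab := MUT_abel (fun n => mg (fun n => χ (n : ZMod q)) n) t M N hS hM0 N le_rfl hN1
    have hSN : ‖(∑ n ∈ Ioc 0 N, mg (fun n => χ (n : ZMod q)) n) * nit t N‖ ≤ M := by
      rw [norm_mul, MUT_norm, mul_one]
      exact hS N le_rfl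
    have hN0 : (0 : ℝ) < N := by exact_mod_cast hN1
    have hlogN : Real.log N ≤ L := Real.log_le_log hN0 hNx
    have hlogN0 : 0 ≤ Real.log N := Real.log_nonneg (by exact_mod_cast hN1)
    have htot : ‖∑ n ∈ Ioc 0 N, mg (fun n => χ (n : ZMod q)) n * nit t n‖ ≤
        M * |t| * Real.log N + M := by
      have e : ∑ n ∈ Ioc 0 N, mg (fun n => χ (n : ZMod q)) n * nit t n =
          (∑ n ∈ Ioc 0 N, mg (fun n => χ (n : ZMod q)) n * nit t n -
            (∑ n ∈ Ioc 0 N, mg (fun n => χ (n : ZMod q)) n) * nit t N) +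
          (∑ n ∈ Ioc 0 N, mg (fun n => χ (n : ZMod q)) n) * nit t N := by ring
      rw [e]
      exact le_trans (norm_add_le _ _) (add_le_add hab hSN)
    refine le_trans htot ?_
    have hLB : 1 ≤ L ^ B₁ := one_le_pow₀ (by linarith)
    have h5 : M * |t| * Real.log N ≤ M * (L ^ B₁ * L) := by
      rw [mul_assoc]
      apply mul_le_mul_of_nonneg_left _ hM0
      exact mul_le_mul hsmall.le hlogN hlogN0 (by positivity)
    have h6 : L ^ B₁ * L + 1 ≤ L ^ (B₁ + 3) := by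
      rw [pow_add]
      have h7 : L + 1 ≤ L ^ 3 := by nlinarith [sq_nonneg L, mul_self_nonneg (L - 2)]
      nlinarith
    have h8 : M * L ^ (B₁ + 3) = x / L ^ A := by
      rw [hM, show A + B₁ + 3 = A + (B₁ + 3) by ring, pow_add, div_mul_eq_mul_div,
        mul_div_mul_right _ _ (by positivity)]
    rw [← h8]
    calc M * |t| * Real.log N + M ≤ M * (L ^ B₁ * L) + M := by linarith
      _ = M * (L ^ B₁ * L + 1) := by ring
      _ ≤ M * L ^ (B₁ + 3) := mul_le_mul_of_nonneg_left h6 hM0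

end Pool.Agent.YB
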