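import Pool.Agent.helper36.YB.Spec

/-!
# Project yb, row MUX: the Moebius function of the elements (port of Pool/Agent/helper9/BP/MUE.lean)
-/

set_option autoImplicit false

open Finset
open Pool.Agent.FI Pool.Agent.HK Pool.Agent.BP
open Pool.Agent.CH (nit rgh ll2)
open Pool.Agent.SK (tr0 Th)

noncomputable section

namespace Pool.Agent.YB

private lemma MUX_ch8_mul (a b : ℕ) : ch8 (a * b) = ch8 a * ch8 b := by
  unfold ch8
  rw [Nat.mul_mod]
  have ha : a % 8 < 8 := Nat.mod_lt _ (by norm_num)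
  have hb : b % 8 < 8 := Nat.mod_lt _ (by norm_num)
  generalize a % 8 = r at *
  generalize b % 8 = s at *
  interval_cases r <;> interval_cases s <;> norm_num

private lemma MUX_ch8_even (b : ℕ) (hb : ¬ Odd b) : ch8 b = 0 := by
  have h : b % 2 = 0 := Nat.even_iff.mp (Nat.not_odd_iff_even.mp hb)
  unfold ch8
  rw [if_neg (by omega), if_neg (by omega)]

private lemma MUX_dvd2 {q b : ℕ} (hq : 2 ∣ q) (h : Nat.Coprime b q) : ((b : ℤ)) % 2 = 1 := by
  have h1 : ¬ 2 ∣ b := by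
    intro h2
    have h3 := Nat.dvd_gcd h2 hq
    rw [h] at h3
    omega
  omega

private lemma MUX_gh {q : ℕ} {Ψ : ℤ × ℤ → ℂ} (hq : 2 ∣ q) (hU : UX q Ψ) {g h : ℕ → ℂ} (hg : CM g) (hh : CM h)
    (hp : ∀ p : ℕ, p.Prime → g p * h p = if p ∣ q then 0 else ((ch8 p : ℝ) : ℂ) * Ψ ((p : ℤ), 0)) :
    ∀ b : ℕ, Squarefree b → g b * h b =
      if Nat.Coprime b q then ((ch8 b : ℝ) : ℂ) * Ψ ((b : ℤ), 0) else 0 := by
  intro b
  induction b using Nat.strong_induction_on with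
  | _ b ih =>
    intro hsq
    by_cases hb1 : b = 1
    · subst hb1
      have h10 : Ψ (((1 : ℕ) : ℤ), 0) = 1 := hU.2.1 _ (by norm_num [N8])
      rw [hg.2.1, hh.2.1, if_pos (Nat.coprime_one_left q), h10]
      norm_num [ch8]
    · have hb0 : b ≠ 0 := hsq.ne_zero
      have hpr := Nat.minFac_prime hb1
      obtain ⟨c, hc⟩ := Nat.minFac_dvd b
      set p := b.minFac with hpdef
      have hc0 : c ≠ 0 := by
        rintro rfl
        exact hb0 (by rw [hc, mul_zero])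
      have hclt : c < b := by
        rw [hc]
        have := hpr.two_le
        nlinarith [Nat.pos_of_ne_zero hc0]
      have hcsq : Squarefree c := hsq.squarefree_of_dvd ⟨p, by rw [hc, mul_comm]⟩
      have h1 : g b * h b = (g p * h p) * (g c * h c) := by
        rw [hc, hg.2.2.1, hh.2.2.1]
        ring
      rw [h1, hp p hpr, ih c hclt hcsq]
      have h2 : Nat.Coprime b q ↔ ¬ p ∣ q ∧ Nat.Coprime c q := by
        conv_lhs => rw [hc]
        rw [Nat.coprime_mul_iff_left, hpr.coprime_iff_not_dvd]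
      have h3 : ch8 b = ch8 p * ch8 c := by
        conv_lhs => rw [hc]
        exact MUX_ch8_mul p c
      by_cases hpd : p ∣ q
      · have h4 : ¬ Nat.Coprime b q := fun h5 => (h2.mp h5).1 hpd
        rw [if_pos hpd, if_neg h4, zero_mul]
      · rw [if_neg hpd]
        by_cases hcd : Nat.Coprime c q
        · have hp2 : ((p : ℤ)) % 2 = 1 := MUX_dvd2 hq (hpr.coprime_iff_not_dvd.2 hpd)
          have hc2 : ((c : ℤ)) % 2 = 1 := MUX_dvd2 hq hcd
          have h6 : Ψ ((b : ℤ), 0) = Ψ ((p : ℤ), 0) * Ψ ((c : ℤ), 0) := by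
            rw [← hU.1 _ _ hp2 hc2]
            congr 1
            simp only [mul8]
            have : (b : ℤ) = p * c := by exact_mod_cast hc
            rw [this]
            simp
          rw [if_pos hcd, if_pos (h2.mpr ⟨hpd, hcd⟩), h3, h6]
          push_cast
          ring
        · have h4 : ¬ Nat.Coprime b q := fun h5 => hcd (h2.mp h5).2
          rw [if_neg hcd, if_neg h4, mul_zero]

private lemma MUX_mem (hSIZ : SIZ_stmt) (n : ℕ) (z : ℤ × ℤ) :
    (z ∈ FF n ∧ nn z = n) ↔ (Fd z ∧ nn z = n) := by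
  classical
  constructor
  · rintro ⟨h1, h2⟩
    have h3 := (mem_filter.mp (show z ∈ FF n from h1)).2
    exact ⟨h3.1, h2⟩
  · rintro ⟨h1, h2⟩
    refine ⟨?_, h2⟩
    rw [← h2]
    exact (hSIZ z h1).2.2.2.1

private lemma MUX_nn (b : ℕ) (z : ℤ × ℤ) : nn ((b : ℤ) * z.1, (b : ℤ) * z.2) = b ^ 2 * nn z := by
  have h : N8 ((b : ℤ) * z.1, (b : ℤ) * z.2) = (b : ℤ) ^ 2 * N8 z := by
    simp only [N8]
    ring
  rw [nn, h, Int.natAbs_mul, nn, Int.natAbs_pow, Int.natAbs_natCast]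

private lemma MUX_Fd (b : ℕ) (hb : Odd b) (z : ℤ × ℤ) :
    Fd ((b : ℤ) * z.1, (b : ℤ) * z.2) ↔ Fd z := by
  have hb0 : (0 : ℤ) < b := by exact_mod_cast hb.pos
  have hb2 : (b : ℤ) % 2 = 1 := by
    have := Nat.odd_iff.mp hb
    omega
  unfold Fd
  simp only
  have h1 : ((b : ℤ) * z.1) % 2 = 1 ↔ z.1 % 2 = 1 := by
    rw [Int.mul_emod, hb2, one_mul, Int.emod_emod_of_dvd _ (dvd_refl 2)]
  have h2 : 4 * |(b : ℤ) * z.2| < (b : ℤ) * z.1 ↔ 4 * |z.2| < z.1 := by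
    rw [abs_mul, abs_of_pos hb0]
    constructor
    · intro h
      nlinarith
    · intro h
      nlinarith
  have h3 : |(b : ℤ) * z.1| < 2 * ((b : ℤ) * z.2) ↔ |z.1| < 2 * z.2 := by
    rw [abs_mul, abs_of_pos hb0]
    constructor
    · intro h
      nlinarith
    · intro h
      nlinarith
  rw [h1, h2, h3]

private lemma MUX_gcd_sq_dvd (z : ℤ × ℤ) : Int.gcd z.1 z.2 ^ 2 ∣ nn z := by
  have h1 : ((Int.gcd z.1 z.2 : ℕ) : ℤ) ∣ z.1 := Int.gcd_dvd_left _ _
  have h2 : ((Int.gcd z.1 z.2 : ℕ) : ℤ) ∣ z.2 := Int.gcd_dvd_right _ _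
  have h3 : ((Int.gcd z.1 z.2 : ℕ) : ℤ) ^ 2 ∣ N8 z :=
    dvd_sub (pow_dvd_pow_of_dvd h1 2) ((pow_dvd_pow_of_dvd h2 2).mul_left 8)
  rw [nn, ← Int.natCast_dvd]
  push_cast
  exact h3

private lemma MUX_fib (hSIZ : SIZ_stmt) (Ψ : ℤ × ℤ → ℂ) (b m : ℕ) (hb : Odd b) (hm : Squarefree m) :
    ∑ z ∈ (FF (b ^ 2 * m)).filter (fun z => nn z = b ^ 2 * m) with Int.gcd z.1 z.2 = b, Ψ z =
      ∑ z ∈ FF m with nn z = m, Ψ ((b : ℤ) * z.1, (b : ℤ) * z.2) := by
  have hb0 : (b : ℤ) ≠ 0 := by exact_mod_cast hb.pos.ne'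
  symm
  refine sum_nbij' (fun z => ((b : ℤ) * z.1, (b : ℤ) * z.2)) (fun z => (z.1 / b, z.2 / b)) ?_ ?_ ?_ ?_ ?_
  · intro z hz
    rw [mem_filter] at hz
    obtain ⟨hF, hnz⟩ := (MUX_mem hSIZ m z).mp hz
    rw [mem_filter, mem_filter]
    refine ⟨(MUX_mem hSIZ _ _).mpr ⟨(MUX_Fd b hb z).mpr hF, ?_⟩, ?_⟩
    · rw [MUX_nn, hnz]
    · simp only
      rw [Int.gcd_mul_left, Int.natAbs_natCast]
      have h1 : Int.gcd z.1 z.2 * Int.gcd z.1 z.2 ∣ m := by
        rw [← pow_two, ← hnz]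
        exact MUX_gcd_sq_dvd z
      rw [Nat.isUnit_iff.mp (hm _ h1), mul_one]
  · intro z hz
    rw [mem_filter, mem_filter] at hz
    obtain ⟨hz1, hgcd⟩ := hz
    obtain ⟨hF, hnz⟩ := (MUX_mem hSIZ _ z).mp hz1
    have e1 : (b : ℤ) * (z.1 / b) = z.1 := by
      apply Int.mul_ediv_cancel'
      rw [← hgcd]
      exact Int.gcd_dvd_left _ _
    have e2 : (b : ℤ) * (z.2 / b) = z.2 := by
      apply Int.mul_ediv_cancel'
      rw [← hgcd]
      exact Int.gcd_dvd_right _ _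
    have e : ((b : ℤ) * (z.1 / b, z.2 / b).1, (b : ℤ) * (z.1 / (b : ℤ), z.2 / (b : ℤ)).2) = z :=
      Prod.ext e1 e2
    rw [mem_filter]
    refine (MUX_mem hSIZ m _).mpr ⟨?_, ?_⟩
    · rw [← MUX_Fd b hb, e]
      exact hF
    · have h2 := MUX_nn b (z.1 / (b : ℤ), z.2 / (b : ℤ))
      rw [e, hnz] at h2
      exact (Nat.eq_of_mul_eq_mul_left (pow_pos hb.pos 2) h2).symm
  · intro z _
    simp only
    rw [Int.mul_ediv_cancel_left _ hb0, Int.mul_ediv_cancel_left _ hb0]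
  · intro z hz
    rw [mem_filter, mem_filter] at hz
    refine Prod.ext ?_ ?_
    · simp only
      apply Int.mul_ediv_cancel'
      rw [← hz.2]
      exact Int.gcd_dvd_left _ _
    · simp only
      apply Int.mul_ediv_cancel'
      rw [← hz.2]
      exact Int.gcd_dvd_right _ _
  · intro z _
    rfl

private lemma MUX_scale {q : ℕ} {Ψ : ℤ × ℤ → ℂ} (hU : UX q Ψ) (b : ℕ) (hb : Odd b) (z : ℤ × ℤ)
    (hz : z.1 % 2 = 1) :
    Ψ ((b : ℤ) * z.1, (b : ℤ) * z.2) = Ψ ((b : ℤ), 0) * Ψ z := by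
  have hb2 : (b : ℤ) % 2 = 1 := by
    have := Nat.odd_iff.mp hb
    omega
  have e : ((b : ℤ) * z.1, (b : ℤ) * z.2) = mul8 ((b : ℤ), 0) z := by
    simp [mul8]
  rw [e, hU.1 _ _ hb2 hz]

private lemma MUX_zero {q : ℕ} {Ψ : ℤ × ℤ → ℂ} (hU : UX q Ψ) (b : ℕ) (hb : Odd b)
    (hc : ¬ Nat.Coprime b q) : Ψ ((b : ℤ), 0) = 0 := by
  have hb2 : (b : ℤ) % 2 = 1 := by
    have := Nat.odd_iff.mp hb
    omega
  have hn : nn ((b : ℤ), 0) = b ^ 2 := by
    have : N8 ((b : ℤ), 0) = (b : ℤ) ^ 2 := by simp [N8]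
    rw [nn, this, Int.natAbs_pow, Int.natAbs_natCast]
  exact hU.2.2.1 ((b : ℤ), 0) hb2 (by
    rw [hn]
    intro hcop
    exact hc (Nat.Coprime.coprime_dvd_left (dvd_pow_self b two_ne_zero) hcop))

theorem MUX (hGPX : GPX_stmt) (hGFM : GFM_stmt) (hSIZ : SIZ_stmt) : MUX_stmt := by
  classical
  intro d Ψ hd hU g h hg hh hf n hn
  have hgh := MUX_gh hd hU hg hh (hGPX d Ψ hd hU g h hg hh hf)
  rw [hGFM g h hg hh n hn, sum_filter, rf]
  have hmaps : ∀ z ∈ (FF n).filter (fun z => nn z = n), Int.gcd z.1 z.2 ∈ n.divisors := by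
    intro z hz
    rw [mem_filter] at hz
    rw [Nat.mem_divisors]
    refine ⟨?_, by omega⟩
    have h1 := MUX_gcd_sq_dvd z
    rw [hz.2] at h1
    exact (dvd_pow_self _ two_ne_zero).trans h1
  rw [← sum_fiberwise_of_maps_to hmaps]
  refine sum_congr rfl fun b hb => ?_
  by_cases hP : b ^ 2 ∣ n ∧ Squarefree b ∧ Nat.Coprime b (n / b ^ 2)
  · rw [if_pos hP]
    obtain ⟨⟨m, hm⟩, hsq, hcop⟩ := hP
    have hb0 : 0 < b := Nat.pos_of_ne_zero hsq.ne_zero
    have hdiv : n / b ^ 2 = m := by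
      rw [hm]
      exact Nat.mul_div_cancel_left _ (pow_pos hb0 2)
    rw [hdiv] at hcop ⊢
    have hm1 : 1 ≤ m := by
      rcases Nat.eq_zero_or_pos m with h0 | h0
      · subst h0
        omega
      · exact h0
    have hstep : ∑ z ∈ (FF n).filter (fun z => nn z = n) with Int.gcd z.1 z.2 = b,
        (mue z : ℂ) * Ψ z = ((ArithmeticFunction.moebius m : ℂ) * ((ch8 b : ℝ) : ℂ)) *
          ∑ z ∈ (FF n).filter (fun z => nn z = n) with Int.gcd z.1 z.2 = b, Ψ z := by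
      rw [mul_sum]
      refine sum_congr rfl fun z hz => ?_
      rw [mem_filter, mem_filter] at hz
      rw [mue, hz.2, hz.1.2, hdiv, if_pos ⟨hsq, hcop⟩]
      push_cast
      ring
    rw [hstep, hgh b hsq, ← hf m hm1]
    by_cases hmsq : Squarefree m
    · by_cases hodd : Odd b
      · have h1 := MUX_fib hSIZ Ψ b m hodd hmsq
        rw [← hm] at h1
        rw [h1]
        have h2 : ∑ z ∈ FF m with nn z = m, Ψ ((b : ℤ) * z.1, (b : ℤ) * z.2) =
            Ψ ((b : ℤ), 0) * rf Ψ m := by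
          rw [rf, mul_sum]
          refine sum_congr rfl fun z hz => ?_
          rw [mem_filter] at hz
          exact MUX_scale hU b hodd z ((MUX_mem hSIZ m z).mp hz).1.1
        rw [h2]
        by_cases hbd : Nat.Coprime b d
        · rw [if_pos hbd]
          ring
        · rw [if_neg hbd, MUX_zero hU b hodd hbd]
          ring
      · rw [MUX_ch8_even b hodd]
        simp
    · rw [ArithmeticFunction.moebius_eq_zero_of_not_squarefree hmsq]
      simp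
  · rw [if_neg hP]
    refine sum_eq_zero fun z hz => ?_
    rw [mem_filter, mem_filter] at hz
    obtain ⟨⟨-, hnz⟩, hgz⟩ := hz
    have h1 : b ^ 2 ∣ n := by
      rw [← hgz, ← hnz]
      exact MUX_gcd_sq_dvd z
    rw [mue, hgz, hnz, if_neg (by tauto)]
    simp

end Pool.Agent.YB
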