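import Pool.Agent.helper36.YB.Spec

set_option autoImplicit false

open Finset
open Pool.Agent.FI Pool.Agent.HK Pool.Agent.BP
open Pool.Agent.CH (nit rgh ll2)
open Pool.Agent.SK (tr0 Th)

noncomputable section

namespace Pool.Agent.YB

theorem MZX_N8 (z w : ℤ × ℤ) : N8 (mul8 z w) = N8 z * N8 w := by
  unfold N8 mul8
  ring

/-- multiplication by `w` modulo `D` -/
def MZX_T (D : ℕ) (w : ℤ × ℤ) (v : ℕ × ℕ) : ℕ × ℕ :=
  (((mul8 w ((v.1 : ℤ), (v.2 : ℤ))).1 % (D : ℤ)).toNat, ((mul8 w ((v.1 : ℤ), (v.2 : ℤ))).2 % (D : ℤ)).toNat)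

theorem MZX_Tval (D : ℕ) (hD : 0 < D) (w : ℤ × ℤ) (v : ℕ × ℕ) :
    ((MZX_T D w v).1 : ℤ) = (mul8 w ((v.1 : ℤ), (v.2 : ℤ))).1 % (D : ℤ) ∧
    ((MZX_T D w v).2 : ℤ) = (mul8 w ((v.1 : ℤ), (v.2 : ℤ))).2 % (D : ℤ) := by
  have hD' : (D : ℤ) ≠ 0 := by exact_mod_cast hD.ne'
  unfold MZX_T
  exact ⟨Int.toNat_of_nonneg (Int.emod_nonneg _ hD'), Int.toNat_of_nonneg (Int.emod_nonneg _ hD')⟩

theorem MZX_Tmem (D : ℕ) (hD : 0 < D) (w : ℤ × ℤ) (v : ℕ × ℕ) : MZX_T D w v ∈ range D ×ˢ range D := by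
  have hD' : (0 : ℤ) < (D : ℤ) := by exact_mod_cast hD
  obtain ⟨h1, h2⟩ := MZX_Tval D hD w v
  have h3 := Int.emod_lt_of_pos (mul8 w ((v.1 : ℤ), (v.2 : ℤ))).1 hD'
  have h4 := Int.emod_lt_of_pos (mul8 w ((v.1 : ℤ), (v.2 : ℤ))).2 hD'
  rw [← h1] at h3
  rw [← h2] at h4
  rw [mem_product, mem_range, mem_range]
  exact ⟨by exact_mod_cast h3, by exact_mod_cast h4⟩

theorem MZX_cancel (D : ℤ) (w : ℤ × ℤ) (hc : IsCoprime (N8 w) D) (a b : ℤ)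
    (h1 : D ∣ w.1 * a + 8 * w.2 * b) (h2 : D ∣ w.1 * b + w.2 * a) : D ∣ a ∧ D ∣ b := by
  have e1 : D ∣ N8 w * a := by
    have : N8 w * a = w.1 * (w.1 * a + 8 * w.2 * b) - 8 * w.2 * (w.1 * b + w.2 * a) := by
      unfold N8
      ring
    rw [this]
    exact dvd_sub (Dvd.dvd.mul_left h1 _) (Dvd.dvd.mul_left h2 _)
  have e2 : D ∣ N8 w * b := by
    have : N8 w * b = w.1 * (w.1 * b + w.2 * a) - w.2 * (w.1 * a + 8 * w.2 * b) := by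
      unfold N8
      ring
    rw [this]
    exact dvd_sub (Dvd.dvd.mul_left h2 _) (Dvd.dvd.mul_left h1 _)
  exact ⟨hc.symm.dvd_of_dvd_mul_left e1, hc.symm.dvd_of_dvd_mul_left e2⟩

theorem MZX_eq_of_dvd (D a b : ℕ) (ha : a < D) (hb : b < D) (h : (D : ℤ) ∣ (a : ℤ) - b) : a = b := by
  have h1 : (a : ℤ) ≡ b [ZMOD D] := (Int.modEq_iff_dvd.2 (by
    rw [← dvd_neg, neg_sub]
    exact h))
  have h2 : a ≡ b [MOD D] := (Int.natCast_modEq_iff).1 h1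
  exact Nat.ModEq.eq_of_lt_of_lt h2 ha hb

theorem MZX_Tinj (D : ℕ) (hD : 0 < D) (w : ℤ × ℤ) (hc : IsCoprime (N8 w) (D : ℤ)) :
    Set.InjOn (MZX_T D w) (range D ×ˢ range D : Finset (ℕ × ℕ)) := by
  intro v hv v' hv' he
  have hv1 := mem_product.1 (mem_coe.1 hv)
  have hv2 := mem_product.1 (mem_coe.1 hv')
  rw [mem_range, mem_range] at hv1 hv2
  obtain ⟨h1, h2⟩ := MZX_Tval D hD w v
  obtain ⟨h3, h4⟩ := MZX_Tval D hD w v'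
  rw [he, h3] at h1
  rw [he, h4] at h2
  have e1 := Int.ModEq.dvd (show (mul8 w ((v'.1 : ℤ), (v'.2 : ℤ))).1 ≡ (mul8 w ((v.1 : ℤ), (v.2 : ℤ))).1 [ZMOD D] from h1)
  have e2 := Int.ModEq.dvd (show (mul8 w ((v'.1 : ℤ), (v'.2 : ℤ))).2 ≡ (mul8 w ((v.1 : ℤ), (v.2 : ℤ))).2 [ZMOD D] from h2)
  have k := MZX_cancel (D : ℤ) w hc ((v.1 : ℤ) - v'.1) ((v.2 : ℤ) - v'.2)
    (by
      have : w.1 * ((v.1 : ℤ) - v'.1) + 8 * w.2 * ((v.2 : ℤ) - v'.2) =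
          (mul8 w ((v.1 : ℤ), (v.2 : ℤ))).1 - (mul8 w ((v'.1 : ℤ), (v'.2 : ℤ))).1 := by
        simp only [mul8]
        ring
      rw [this]
      exact e1)
    (by
      have : w.1 * ((v.2 : ℤ) - v'.2) + w.2 * ((v.1 : ℤ) - v'.1) =
          (mul8 w ((v.1 : ℤ), (v.2 : ℤ))).2 - (mul8 w ((v'.1 : ℤ), (v'.2 : ℤ))).2 := by
        simp only [mul8]
        ring
      rw [this]
      exact e2)
  exact Prod.ext (MZX_eq_of_dvd D _ _ hv1.1 hv2.1 k.1) (MZX_eq_of_dvd D _ _ hv1.2 hv2.2 k.2)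

theorem MZX_cop (d : ℕ) (z : ℤ × ℤ) (h : Nat.Coprime (nn z) d) : IsCoprime (N8 z) (d : ℤ) := by
  rw [Int.isCoprime_iff_gcd_eq_one, Int.gcd]
  simpa [nn] using h

theorem MZX : MZX_stmt := by
  intro q ξ hξ hN
  obtain ⟨w, hw, hne⟩ := hN
  obtain ⟨_, hq, hmul, hper, _, _⟩ := hξ
  have hc : IsCoprime (N8 w) (q : ℤ) := MZX_cop q w hw
  have hinj := MZX_Tinj q hq w hc
  have hmaps : ∀ v ∈ range q ×ˢ range q, MZX_T q w v ∈ range q ×ˢ range q :=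
    fun v _ => MZX_Tmem q hq w v
  have hsurj : Set.SurjOn (MZX_T q w) (range q ×ˢ range q : Finset (ℕ × ℕ))
      (range q ×ˢ range q : Finset (ℕ × ℕ)) :=
    Finset.surjOn_of_injOn_of_card_le _ hmaps hinj le_rfl
  have key : ∑ v ∈ range q ×ˢ range q, ξ w * ξ ((v.1 : ℤ), (v.2 : ℤ)) =
      ∑ v ∈ range q ×ˢ range q, ξ ((v.1 : ℤ), (v.2 : ℤ)) := by
    refine Finset.sum_nbij (MZX_T q w) hmaps hinj hsurj (fun v _ => ?_)
    rw [← hmul w]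
    obtain ⟨h1, h2⟩ := MZX_Tval q hq w v
    refine hper _ _ ?_ ?_
    · simp only []
      rw [h1]
      exact Int.dvd_self_sub_emod
    · simp only []
      rw [h2]
      exact Int.dvd_self_sub_emod
  rw [← Finset.mul_sum] at key
  have h0 : (ξ w - 1) * ∑ v ∈ range q ×ˢ range q, ξ ((v.1 : ℤ), (v.2 : ℤ)) = 0 := by
    rw [sub_mul, key, one_mul, sub_self]
  rcases mul_eq_zero.1 h0 with h1 | h1
  · exact absurd (sub_eq_zero.1 h1) hne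
  · exact h1

end Pool.Agent.YB
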