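import Pool.Agent.helper36.YB.Spec

set_option autoImplicit false

open Finset
open Pool.Agent.FI Pool.Agent.HK Pool.Agent.BP
open Pool.Agent.CH (nit rgh ll2)
open Pool.Agent.SK (tr0 Th)

noncomputable section

namespace Pool.Agent.YB

theorem UXH_N8mul (z w : ℤ × ℤ) : N8 (mul8 z w) = N8 z * N8 w := by
  unfold N8 mul8; ring

theorem UXH_N8ne (z : ℤ × ℤ) (hz : z.1 % 2 = 1) : N8 z ≠ 0 := by
  intro h
  unfold N8 at h
  have h1 : (z.1 ^ 2 - 8 * z.2 ^ 2) % 2 = 1 := by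
    have : z.1 ^ 2 % 2 = 1 := by
      rw [pow_two, Int.mul_emod, hz]; rfl
    omega
  rw [h] at h1
  norm_num at h1

theorem UXH_oddmul (z w : ℤ × ℤ) (hz : z.1 % 2 = 1) (hw : w.1 % 2 = 1) :
    (mul8 z w).1 % 2 = 1 := by
  unfold mul8
  have h1 : (z.1 * w.1) % 2 = 1 := by
    rw [Int.mul_emod, hz, hw]; rfl
  have h2 : 8 * z.2 * w.2 = 8 * (z.2 * w.2) := by ring
  show (z.1 * w.1 + 8 * z.2 * w.2) % 2 = 1
  rw [h2]
  omega

theorem UXH_ne (z : ℤ × ℤ) (hz : z.1 % 2 = 1) :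
    ((z.1 : ℝ) + z.2 * √8 ≠ 0) ∧ ((z.1 : ℝ) - z.2 * √8 ≠ 0) := by
  have h8 : √8 * √8 = (8 : ℝ) := Real.mul_self_sqrt (by norm_num)
  have h : ((z.1 : ℝ) + z.2 * √8) * ((z.1 : ℝ) - z.2 * √8) = ((N8 z : ℤ) : ℝ) := by
    unfold N8
    push_cast
    have : ((z.1 : ℝ) + z.2 * √8) * ((z.1 : ℝ) - z.2 * √8) = z.1 ^ 2 - z.2 ^ 2 * (√8 * √8) := by ring
    rw [this, h8]; ring
  have hne : ((N8 z : ℤ) : ℝ) ≠ 0 := by exact_mod_cast UXH_N8ne z hz
  constructor
  · intro h0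
    apply hne; rw [← h, h0, zero_mul]
  · intro h0
    apply hne; rw [← h, h0, mul_zero]

theorem UXH_yymul (z w : ℤ × ℤ) (hz : z.1 % 2 = 1) (hw : w.1 % 2 = 1) :
    yy (mul8 z w) = yy z + yy w := by
  obtain ⟨a1, a2⟩ := UXH_ne z hz
  obtain ⟨b1, b2⟩ := UXH_ne w hw
  have h8 : √8 * √8 = (8 : ℝ) := Real.mul_self_sqrt (by norm_num)
  have e1 : (((mul8 z w).1 : ℤ) : ℝ) + ((mul8 z w).2 : ℤ) * √8
      = ((z.1 : ℝ) + z.2 * √8) * ((w.1 : ℝ) + w.2 * √8) := by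
    unfold mul8
    push_cast
    have : ((z.1 : ℝ) + z.2 * √8) * ((w.1 : ℝ) + w.2 * √8)
        = z.1 * w.1 + z.2 * w.2 * (√8 * √8) + (z.1 * w.2 + z.2 * w.1) * √8 := by ring
    rw [this, h8]; ring
  have e2 : (((mul8 z w).1 : ℤ) : ℝ) - ((mul8 z w).2 : ℤ) * √8
      = ((z.1 : ℝ) - z.2 * √8) * ((w.1 : ℝ) - w.2 * √8) := by
    unfold mul8
    push_cast
    have : ((z.1 : ℝ) - z.2 * √8) * ((w.1 : ℝ) - w.2 * √8)
        = z.1 * w.1 + z.2 * w.2 * (√8 * √8) - (z.1 * w.2 + z.2 * w.1) * √8 := by ring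
    rw [this, h8]; ring
  unfold yy
  rw [e1, e2, abs_mul, abs_mul, mul_div_mul_comm, Real.log_mul]
  · exact div_ne_zero (abs_ne_zero.mpr a1) (abs_ne_zero.mpr a2)
  · exact div_ne_zero (abs_ne_zero.mpr b1) (abs_ne_zero.mpr b2)

theorem UXH_s1mul (z w : ℤ × ℤ) (hz : z.1 % 2 = 1) (hw : w.1 % 2 = 1) :
    s1 (mul8 z w) = s1 z * s1 w := by
  obtain ⟨a1, -⟩ := UXH_ne z hz
  obtain ⟨b1, -⟩ := UXH_ne w hw
  have h8 : √8 * √8 = (8 : ℝ) := Real.mul_self_sqrt (by norm_num)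
  have e1 : (((mul8 z w).1 : ℤ) : ℝ) + ((mul8 z w).2 : ℤ) * √8
      = ((z.1 : ℝ) + z.2 * √8) * ((w.1 : ℝ) + w.2 * √8) := by
    unfold mul8
    push_cast
    have : ((z.1 : ℝ) + z.2 * √8) * ((w.1 : ℝ) + w.2 * √8)
        = z.1 * w.1 + z.2 * w.2 * (√8 * √8) + (z.1 * w.2 + z.2 * w.1) * √8 := by ring
    rw [this, h8]; ring
  unfold s1
  rw [e1]
  rcases lt_or_gt_of_ne a1 with ha | ha <;> rcases lt_or_gt_of_ne b1 with hb | hb
  · rw [if_pos (mul_pos_of_neg_of_neg ha hb), if_neg (not_lt.2 ha.le), if_neg (not_lt.2 hb.le)]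
    norm_num
  · rw [if_neg (not_lt.2 (mul_neg_of_neg_of_pos ha hb).le), if_neg (not_lt.2 ha.le), if_pos hb]
    norm_num
  · rw [if_neg (not_lt.2 (mul_neg_of_pos_of_neg ha hb).le), if_pos ha, if_neg (not_lt.2 hb.le)]
    norm_num
  · rw [if_pos (mul_pos ha hb), if_pos ha, if_pos hb]
    norm_num

theorem UXH_mul (q : ℕ) (ξ : ℤ × ℤ → ℂ) (i₁ i : ℕ) (κ : ℝ) (h : IsX q ξ) (z w : ℤ × ℤ)
    (hz : z.1 % 2 = 1) (hw : w.1 % 2 = 1) :
    HX ξ i₁ i κ (mul8 z w) = HX ξ i₁ i κ z * HX ξ i₁ i κ w := by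
  unfold HX
  rw [h.2.2.1, UXH_s1mul z w hz hw, UXH_N8mul, Int.sign_mul, UXH_yymul z w hz hw]
  have : Complex.exp ((κ : ℂ) * ((yy z + yy w : ℝ) : ℂ) * Complex.I)
      = Complex.exp ((κ : ℂ) * (yy z : ℂ) * Complex.I) *
        Complex.exp ((κ : ℂ) * (yy w : ℂ) * Complex.I) := by
    rw [← Complex.exp_add]
    congr 1
    push_cast; ring
  rw [this]
  push_cast
  rw [mul_pow, mul_pow]
  ring

theorem UXH_yyr (t : ℤ) (ht : t ≠ 0) : yy (t, 0) = 0 := by
  unfold yy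
  have : (t : ℝ) ≠ 0 := by exact_mod_cast ht
  simp [div_self (abs_ne_zero.mpr this)]

theorem UXH_sgr (t : ℤ) (ht : t ≠ 0) : (N8 (t, 0)).sign = 1 := by
  unfold N8
  apply Int.sign_eq_one_of_pos
  have : 0 < t ^ 2 := by positivity
  simpa using this

theorem UXH_10 (q : ℕ) (ξ : ℤ × ℤ → ℂ) (i₁ i : ℕ) (κ : ℝ) (h : IsX q ξ) :
    HX ξ i₁ i κ (1, 0) = 1 := by
  have h1 : mul8 (1, 0) (1, 0) = (1, 0) := by unfold mul8; norm_num
  have h2 := h.2.2.1 (1, 0) (1, 0)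
  rw [h1] at h2
  have hn : ‖ξ (1, 0)‖ = 1 := h.2.2.2.2.2 (1, 0) (by
    have : nn (1, 0) = 1 := by
      unfold nn N8
      norm_num
    rw [this]
    exact Nat.coprime_one_left q)
  have h3 : ξ (1, 0) ≠ 0 := by
    intro h0
    rw [h0, norm_zero] at hn
    norm_num at hn
  have h4 : ξ (1, 0) = 1 := by
    have h5 : ξ (1, 0) * 1 = ξ (1, 0) * ξ (1, 0) := by rw [mul_one]; exact h2
    exact (mul_left_cancel₀ h3 h5).symm
  unfold HX
  rw [h4, UXH_yyr 1 (by norm_num), UXH_sgr 1 (by norm_num)]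
  have h6 : s1 (1, 0) = 1 := by
    unfold s1
    rw [if_pos]
    norm_num
  rw [h6]
  simp

theorem UXH_m10 (ξ : ℤ × ℤ → ℂ) (i₁ i : ℕ) (κ : ℝ) (hu : XInv ξ i₁ κ) :
    HX ξ i₁ i κ (-1, 0) = 1 := by
  unfold HX
  rw [UXH_yyr (-1) (by norm_num), UXH_sgr (-1) (by norm_num)]
  have h6 : s1 (-1, 0) = -1 := by
    unfold s1
    rw [if_neg]
    norm_num
  rw [h6, hu.2]
  simp

theorem UXH_31 (ξ : ℤ × ℤ → ℂ) (i₁ i : ℕ) (κ : ℝ) (hu : XInv ξ i₁ κ) :
    HX ξ i₁ i κ (3, 1) = 1 := by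
  have hu1 := hu.1
  unfold HX
  have h8 : √8 * √8 = (8 : ℝ) := Real.mul_self_sqrt (by norm_num)
  have hs : 0 ≤ √8 := Real.sqrt_nonneg 8
  have hlt : √8 < 3 := by
    rw [show (3 : ℝ) = √9 by
      rw [show (9 : ℝ) = 3 ^ 2 by norm_num, Real.sqrt_sq (by norm_num)]]
    exact Real.sqrt_lt_sqrt (by norm_num) (by norm_num)
  have h1 : yy (3, 1) = 2 * Real.log (3 + √8) := by
    unfold yy
    have e : |(((3 : ℤ) : ℝ)) + ((1 : ℤ) : ℝ) * √8| / |(((3 : ℤ) : ℝ)) - ((1 : ℤ) : ℝ) * √8|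
        = (3 + √8) ^ 2 := by
      push_cast
      rw [one_mul, abs_of_pos (by linarith), abs_of_pos (by linarith), div_eq_iff (by linarith)]
      nlinarith
    show Real.log (|(((3 : ℤ) : ℝ)) + ((1 : ℤ) : ℝ) * √8| / |(((3 : ℤ) : ℝ)) - ((1 : ℤ) : ℝ) * √8|) = _
    rw [e, Real.log_pow]
    push_cast; ring
  have h2 : (N8 (3, 1)).sign = 1 := by
    unfold N8; decide
  have h6 : s1 (3, 1) = 1 := by
    unfold s1
    rw [if_pos]
    push_cast
    linarith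
  rw [h1, h2, h6]
  simp only [mul_one, Int.cast_one, one_pow]
  refine Eq.trans ?_ hu1
  push_cast
  rfl

theorem UXH_unit (q₀ : ℕ) (ξ : ℤ × ℤ → ℂ) (i₁ i : ℕ) (κ : ℝ) (h : IsX q₀ ξ) (hu : XInv ξ i₁ κ) :
    ∀ n : ℕ, ∀ u : ℤ × ℤ, u.2.natAbs = n → N8 u = 1 → HX ξ i₁ i κ u = 1 := by
  have h31 := UXH_31 ξ i₁ i κ hu
  have h10 : HX ξ i₁ i κ (1, 0) = 1 := UXH_10 q₀ ξ i₁ i κ h
  have hm10 : HX ξ i₁ i κ (-1, 0) = 1 := UXH_m10 ξ i₁ i κ hu
  have h3m : HX ξ i₁ i κ (3, -1) = 1 := by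
    have e := UXH_mul q₀ ξ i₁ i κ h (3, 1) (3, -1) (by norm_num) (by norm_num)
    have e2 : mul8 (3, 1) (3, -1) = (1, 0) := by unfold mul8; norm_num
    rw [e2, h10, h31, one_mul] at e
    exact e.symm
  intro n
  induction n using Nat.strong_induction_on with
  | _ n ih =>
    intro u hn hN
    obtain ⟨p, q⟩ := u
    have hN' : p ^ 2 - 8 * q ^ 2 = 1 := hN
    have hodd : p % 2 = 1 := by
      rcases Int.emod_two_eq_zero_or_one p with h0 | h0
      · exfalso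
        have : p = 2 * (p / 2) := by omega
        generalize p / 2 = a at this
        rw [this] at hN'
        have : (4 * a ^ 2 - 8 * q ^ 2) = 1 := by rw [← hN']; ring
        omega
      · exact h0
    rcases eq_or_ne q 0 with hq | hq
    · subst hq
      have : p ^ 2 = 1 := by linarith
      rcases (mul_eq_zero.mp (show (p - 1) * (p + 1) = 0 by nlinarith)) with hp | hp
      · rw [show p = 1 by linarith]; exact h10
      · rw [show p = -1 by linarith]; exact hm10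
    · -- reduce
      have hN2 : ∀ w : ℤ × ℤ, N8 w = 1 → N8 (mul8 (p, q) w) = 1 := by
        intro w hw
        rw [UXH_N8mul, hw, hN]; rfl
      have hqn : n ≠ 0 := by
        rw [← hn]
        exact Int.natAbs_ne_zero.mpr hq
      rcases lt_or_gt_of_ne hq with hq0 | hq0
      · rcases lt_or_ge p 0 with hp0 | hp0
        · -- both negative: multiply with (3,-1)
          have a1 : (-3 * q) ≥ -p := by nlinarith
          have a2 : -p > -2 * q := by nlinarith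
          have e := UXH_mul q₀ ξ i₁ i κ h (p, q) (3, -1) hodd (by norm_num)
          rw [h3m, mul_one] at e
          rw [← e]
          have hq1 : (q : ℤ).natAbs = n := hn
          have hlt : (mul8 (p, q) (3, -1)).2.natAbs < n := by
            have : (mul8 (p, q) (3, -1)).2 = -p + 3 * q := by unfold mul8; ring
            rw [this]; omega
          exact ih _ hlt _ rfl (hN2 _ (by unfold N8; norm_num))
        · have a1 : (-3 * q) ≥ p := by nlinarith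
          have a2 : p > -2 * q := by nlinarith
          have e := UXH_mul q₀ ξ i₁ i κ h (p, q) (3, 1) hodd (by norm_num)
          rw [h31, mul_one] at e
          rw [← e]
          have hq1 : (q : ℤ).natAbs = n := hn
          have hlt : (mul8 (p, q) (3, 1)).2.natAbs < n := by
            have : (mul8 (p, q) (3, 1)).2 = p + 3 * q := by unfold mul8; ring
            rw [this]; omega
          exact ih _ hlt _ rfl (hN2 _ (by unfold N8; norm_num))
      · rcases lt_or_ge p 0 with hp0 | hp0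
        · have a1 : (3 * q) ≥ -p := by nlinarith
          have a2 : -p > 2 * q := by nlinarith
          have e := UXH_mul q₀ ξ i₁ i κ h (p, q) (3, 1) hodd (by norm_num)
          rw [h31, mul_one] at e
          rw [← e]
          have hq1 : (q : ℤ).natAbs = n := hn
          have hlt : (mul8 (p, q) (3, 1)).2.natAbs < n := by
            have : (mul8 (p, q) (3, 1)).2 = p + 3 * q := by unfold mul8; ring
            rw [this]; omega
          exact ih _ hlt _ rfl (hN2 _ (by unfold N8; norm_num))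
        · have a1 : (3 * q) ≥ p := by nlinarith
          have a2 : p > 2 * q := by nlinarith
          have e := UXH_mul q₀ ξ i₁ i κ h (p, q) (3, -1) hodd (by norm_num)
          rw [h3m, mul_one] at e
          rw [← e]
          have hq1 : (q : ℤ).natAbs = n := hn
          have hlt : (mul8 (p, q) (3, -1)).2.natAbs < n := by
            have : (mul8 (p, q) (3, -1)).2 = -p + 3 * q := by unfold mul8; ring
            rw [this]; omega
          exact ih _ hlt _ rfl (hN2 _ (by unfold N8; norm_num))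

theorem UXH_norm (q : ℕ) (ξ : ℤ × ℤ → ℂ) (i₁ i : ℕ) (κ : ℝ) (h : IsX q ξ) (z : ℤ × ℤ)
    (hz : z.1 % 2 = 1) (hc : Nat.Coprime (nn z) q) : ‖HX ξ i₁ i κ z‖ = 1 := by
  unfold HX
  have h1 : ‖s1 z ^ i₁‖ = 1 := by
    rw [norm_pow]
    have : ‖s1 z‖ = 1 := by
      unfold s1
      split_ifs <;> simp
    rw [this, one_pow]
  have h2 : ‖(((N8 z).sign : ℤ) : ℂ) ^ i‖ = 1 := by
    rw [norm_pow]
    have : ‖(((N8 z).sign : ℤ) : ℂ)‖ = 1 := by
      rcases lt_or_gt_of_ne (UXH_N8ne z hz) with h0 | h0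
      · rw [Int.sign_eq_neg_one_of_neg h0]; simp
      · rw [Int.sign_eq_one_of_pos h0]; simp
    rw [this, one_pow]
  have h3 : ‖Complex.exp ((κ : ℂ) * (yy z : ℂ) * Complex.I)‖ = 1 := by
    rw [← Complex.ofReal_mul]
    exact Complex.norm_exp_ofReal_mul_I _
  rw [norm_mul, norm_mul, norm_mul, h1, h2, h3, h.2.2.2.2.2 z hc]
  norm_num

theorem UXH : UXH_stmt := by
  intro q ξ i₁ i κ h hu
  refine ⟨fun z w hz hw => UXH_mul q ξ i₁ i κ h z w hz hw,
    fun u hN => UXH_unit q ξ i₁ i κ h hu _ u rfl hN, ?_,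
    fun z hz hc => UXH_norm q ξ i₁ i κ h z hz hc⟩
  intro z _ hc
  unfold HX
  rw [h.2.2.2.2.1 z hc]
  simp

end Pool.Agent.YB
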